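import Pool.Agent.P.MP_cc10d1_gt.Crit

/-! When is the logarithm of the number of quandle colourings of finite type. -/

set_option autoImplicit false

namespace Pool.Agent.Results.MP_cc10d1_gt.Criterion

open Pool.Agent.P.MP_cc10d1_gt

theorem result (X : Type) [Quandle X] [Finite X] :
    List.TFAE
      [∀ Y : Set X, ConnSub Y → Y.Subsingleton,
        ∀ K : Knot, hcol X K = Nat.card X,
        Vassiliev fun K : Knot => Real.log (hcol X K),
        ∃ (A : Type) (_ : AddCommGroup A) (v : Knot → A), Vassiliev v ∧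
          ∃ (K0 : Knot) (M : ℕ), ∀ K : Knot, v K = v K0 → hcol X K ≤ M] := by
  tfae_have 1 → 2 := hcol_const
  tfae_have 2 → 3 := fun h => ⟨0, hasOrder_const (c := Real.log (Nat.card X)) (fun K => by rw [h]) 0⟩
  tfae_have 3 → 4 := fun h => ⟨ℝ, inferInstance, _, h, unknot, ⌈Real.exp (Real.log (hcol X unknot))⌉₊,
    fun K e => by
      have h1 := Real.le_exp_log (hcol X K)
      rw [show Real.log (hcol X K) = Real.log (hcol X unknot) from e] at h1
      exact_mod_cast h1.trans (Nat.le_ceil _)⟩
  tfae_have 4 → 1 := by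
    rintro ⟨A, _, v, hv, K0, M, h⟩ Y hY
    by_contra hs
    obtain ⟨K, e, hK⟩ := unbounded hY hs hv K0 (M + 1)
    have := h K e
    omega
  tfae_finish

end Pool.Agent.Results.MP_cc10d1_gt.Criterion
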