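import Pool.Agent.P.MP_cc10d1_gt.T.All
import Pool.Agent.P.MP_cc10d1_gt.T.Univ
import Pool.Agent.P.MP_cc10d1_gt.Ind.Step

/-! Numbers of quandle colourings and finite type invariants are jointly independent. -/

set_option autoImplicit false

namespace Pool.Agent.Results.MP_cc10d1_gt.Independence

open Pool.Agent.P.MP_cc10d1_gt

universe u v

theorem result (N d : ℕ) (K L : Knot) : ∃ M : Knot,
    (∀ (X : Type u) [Quandle X] [Finite X], Nat.card X ≤ N → hcol X M = hcol X K) ∧
      ∀ (A : Type v) [AddCommGroup A] (f : Knot → A), HasOrder f d → f M = f L := by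
  obtain ⟨M, h1, h2⟩ :=
    Ind.indep T.all_BR T.all_ORD T.all_COX T.all_STABK T.all_BRIDGE T.all_MB N d K L
  refine ⟨M, fun X _ _ hX => ?_, fun A _ f hf => ?_⟩
  · obtain ⟨Y, _, _, hc, e⟩ := T.small_quandle X
    rw [e, e]
    exact h1 Y (hc.trans_le hX)
  · obtain ⟨B, _, g, hg, e⟩ := T.small_val f hf
    exact e _ _ (h2 B g hg)

end Pool.Agent.Results.MP_cc10d1_gt.Independence
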