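import Pool.Agent.P.MP_cc10d1_gt.R.Law

/-! The limit law of the number of colourings of a random closed braid by an Alexander quandle
over a finite field, conditioned on a finite type invariant. -/

set_option autoImplicit false

namespace Pool.Agent.Results.MP_cc10d1_gt.RandomLaw

open Pool.Agent.P.MP_cc10d1_gt Pool.Agent.P.MP_cc10d1_gt.R Filter

universe u

open Classical in
theorem result (F : Type) [Field F] [Finite F] (a : Fˣ) (h1 : (a : F) ≠ 1)
    (hg : Subring.closure {(a : F)} = ⊤) (k : ℕ) (ε : ℝ) (hε : 0 < ε) : ∃ n0 : ℕ, ∀ n, n0 ≤ n →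
    ∀ (A : Type u) [AddCommGroup A] (v : Knot → A) (S : Set A), Vassiliev v →
      (∃ (w : Word n) (h : IsKnot w), v (Knot.mk w h) ∈ S) → ∀ᶠ l in atTop,
      |mean n (n + 2 * l) (v ⁻¹' S)
          (fun K => if hcol (T.Aff (T.mu a)) K = Nat.card F ^ (k + 1) then 1 else 0) -
        if ∃ σ : F ≃+* F, σ a = (a : F)⁻¹ then
          lawS (Nat.card F) (if (a : F) = -1 then 1 else √(Nat.card F)) k
        else lawG (Nat.card F) k| < ε := by
  obtain ⟨n0, h⟩ := law_aff a h1 hg k hε
  refine ⟨n0, fun n hn A _ v S hv hS => (h n hn _ (ev_of hv hS)).mono fun l hl => ?_⟩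
  rw [mean_eq _ _ _ (fun b => if Module.finrank F (V0 a b) = k then 1 else 0) fun w hw => by
    rw [hcol_eq, card_fix_eq]
    simp only [Nat.pow_right_inj Finite.one_lt_card, add_left_inj]]
  simpa only [Units.val_inv_eq_inv_val] using hl

end Pool.Agent.Results.MP_cc10d1_gt.RandomLaw
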