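import Pool.Agent.P.MP_cc10d1_gt.UL.All

/-! The joint limit law of the numbers of colourings of a random closed braid by finitely many
finite quandles exists and is the same under every finite type condition. -/

set_option autoImplicit false

namespace Pool.Agent.Results.MP_cc10d1_gt.UniversalLaw

open Pool.Agent.P.MP_cc10d1_gt Pool.Agent.P.MP_cc10d1_gt.R Filter

universe u

open Classical in
theorem result (J : Type) [Finite J] (X : J → Type) [∀ j, Quandle (X j)] [∀ j, Finite (X j)] :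
    ∃ μ : (J → ℕ) → ℝ, (∀ k, 0 ≤ μ k) ∧ HasSum μ 1 ∧
      (∀ j, HasSum (fun k : J → ℕ => (k j : ℝ) * μ k)
        (Nat.card (Σ Y : CS (X j), commutator (Rack.EnvelGroup (Sub Y))) : ℝ)) ∧
      ∀ (k : J → ℕ) (ε : ℝ), 0 < ε → ∃ n0 : ℕ, ∀ n, n0 ≤ n →
        ∀ (A : Type u) [AddCommGroup A] (v : Knot → A) (S : Set A), Vassiliev v →
          (∃ (w : Word n) (h : IsKnot w), v (Knot.mk w h) ∈ S) → ∀ᶠ l in atTop,
          |mean n (n + 2 * l) (v ⁻¹' S)
            (fun K => if ∀ j, hcol (X j) K = k j then 1 else 0) - μ k| < ε := by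
  obtain ⟨μ, h0, h1, h2, h3⟩ := UL.joint UL.al_BASE UL.al_POW UL.al_TR UL.al_IND UL.al_CONV J X
  refine ⟨μ, h0, h1, h2, fun k ε hε => ?_⟩
  obtain ⟨n0, h⟩ := UL.ev_FF.1 ((h3 k).eventually (Metric.ball_mem_nhds _ hε))
  refine ⟨n0, fun n hn A _ v S hv hS => (h n hn _ (ev_of hv hS)).mono fun l hl => ?_⟩
  rw [mean_eq _ _ _ (UL.pt (fun n b j => Nat.card {x // T.rho (X j) n b x = x}) k n) fun w hw => by
    simp only [hcol_eq, UL.pt, ind, funext_iff]]
  exact hl

end Pool.Agent.Results.MP_cc10d1_gt.UniversalLaw
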